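import Pool.Agent.H47.MED.Stmts

/-!
# Row RTS of the MED board: the `e`-th roots of unity modulo `M`
-/

set_option autoImplicit false

namespace Pool.MED

open Finset

/-- a set of `e`-th roots of unity inside a cyclic subgroup -/
lemma rts_sub {G : Type*} [CommGroup G] [Fintype G] (H : Subgroup G) [IsCyclic H] (e : ℕ)
    (he : 0 < e) (W : Finset G) (hW : ∀ y ∈ W, y ∈ H ∧ y ^ e = 1) : W.card ≤ e := by
  classical
  have h1 : (univ.filter (fun a : H => a ^ e = 1)).card ≤ e := IsCyclic.card_pow_eq_one_le he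
  have h2 : W ⊆ (univ.filter (fun a : H => a ^ e = 1)).image Subtype.val := by
    intro y hy
    obtain ⟨h3, h4⟩ := hW y hy
    rw [mem_image]
    refine ⟨⟨y, h3⟩, ?_, rfl⟩
    rw [mem_filter]
    refine ⟨mem_univ _, ?_⟩
    apply Subtype.ext
    simpa using h4
  exact (card_le_card h2).trans (card_image_le.trans h1)

/-- a set of `e`-th roots of unity in a group with a cyclic subgroup of index two -/
lemma rts_two {G : Type*} [CommGroup G] [Fintype G] (H : Subgroup G) [IsCyclic H]
    (hH : H.index = 2) (e : ℕ) (he : 0 < e) (Z : Finset G) (hZ : ∀ y ∈ Z, y ^ e = 1) :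
    Z.card ≤ 2 * e := by
  classical
  have h1 : (Z.filter (fun y => y ∈ H)).card ≤ e :=
    rts_sub H e he _ (fun y hy => by
      rw [mem_filter] at hy
      exact ⟨hy.2, hZ y hy.1⟩)
  have h2 : (Z.filter (fun y => y ∉ H)).card ≤ e := by
    rcases (Z.filter (fun y => y ∉ H)).eq_empty_or_nonempty with h3 | ⟨y0, h3⟩
    · rw [h3]; simp
    · rw [mem_filter] at h3
      have h4 : ((Z.filter (fun y => y ∉ H)).image (fun y => y * y0)).card =
          (Z.filter (fun y => y ∉ H)).card :=
        card_image_of_injective _ (mul_left_injective y0)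
      rw [← h4]
      apply rts_sub H e he
      intro y hy
      rw [mem_image] at hy
      obtain ⟨z, hz, rfl⟩ := hy
      rw [mem_filter] at hz
      refine ⟨?_, ?_⟩
      · rw [Subgroup.mul_mem_iff_of_index_two hH]
        exact ⟨fun h => absurd h hz.2, fun h => absurd h h3.2⟩
      · rw [mul_pow, hZ z hz.1, hZ y0 h3.1, mul_one]
  have h3 := card_filter_add_card_filter_not (s := Z) (fun y => y ∈ H)
  omega

/-- from roots of unity in a ring to roots of unity in the group of units -/
lemma rts_units {R : Type*} [CommRing R] [Fintype Rˣ] (e B : ℕ) (he : 0 < e)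
    (h : ∀ Z : Finset Rˣ, (∀ y ∈ Z, y ^ e = 1) → Z.card ≤ B)
    (Z : Finset R) (hZ : ∀ y ∈ Z, y ^ e = 1) : Z.card ≤ B := by
  classical
  have h1 : Z ⊆ (univ.filter (fun u : Rˣ => (u : R) ∈ Z)).image (fun u : Rˣ => (u : R)) := by
    intro y hy
    rw [mem_image]
    refine ⟨Units.ofPowEqOne y e (hZ y hy) he.ne', ?_, ?_⟩
    · rw [mem_filter]
      refine ⟨mem_univ _, ?_⟩
      simpa using hy
    · simp
  have h2 : (univ.filter (fun u : Rˣ => (u : R) ∈ Z)).card ≤ B := by
    apply h
    intro y hy
    rw [mem_filter] at hy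
    apply Units.ext
    simpa using hZ _ hy.2
  exact (card_le_card h1).trans (card_image_le.trans h2)

/-- prime powers -/
lemma rts_pp (p n e : ℕ) (hp : p.Prime) (hn : 0 < n) (Z : Finset (ZMod (p ^ n))) (he : 0 < e)
    (hZ : ∀ y ∈ Z, y ^ e = 1) : Z.card ≤ 2 * e := by
  classical
  have : NeZero (p ^ n) := ⟨(pow_pos hp.pos n).ne'⟩
  apply rts_units e (2 * e) he _ Z hZ
  clear hZ Z
  intro Z hZ
  by_cases hp2 : p = 2
  · subst hp2
    rcases Nat.lt_or_ge n 3 with h3 | h3
    · have hc : IsCyclic (ZMod (2 ^ n))ˣ := by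
        rw [ZMod.isCyclic_units_two_pow_iff]
        omega
      have h4 := IsCyclic.card_pow_eq_one_le (α := (ZMod (2 ^ n))ˣ) he
      have h5 : Z ⊆ univ.filter (fun a : (ZMod (2 ^ n))ˣ => a ^ e = 1) := by
        intro y hy
        rw [mem_filter]
        exact ⟨mem_univ _, hZ y hy⟩
      exact (card_le_card h5).trans (h4.trans (by omega))
    · obtain ⟨m, rfl⟩ : ∃ m, n = m + 2 := ⟨n - 2, by omega⟩
      have h5 := ZMod.orderOf_five m
      have h6 : (5 : ZMod (2 ^ (m + 2))) ^ (2 ^ m) = 1 := by
        rw [← h5]; exact pow_orderOf_eq_one _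
      obtain ⟨u, hu⟩ : ∃ u : (ZMod (2 ^ (m + 2)))ˣ, (u : ZMod (2 ^ (m + 2))) = 5 :=
        ⟨Units.ofPowEqOne 5 (2 ^ m) h6 (by positivity), by simp⟩
      have h7 : orderOf u = 2 ^ m := by
        rw [← orderOf_units, hu, h5]
      have h8 : Nat.card (Subgroup.zpowers u) = 2 ^ m := by
        rw [Nat.card_zpowers, h7]
      have h9 : Nat.card (ZMod (2 ^ (m + 2)))ˣ = 2 ^ (m + 1) := by
        rw [Nat.card_eq_fintype_card, ZMod.card_units_eq_totient,
          Nat.totient_prime_pow_succ Nat.prime_two (m + 1)]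
        simp
      have h10 := (Subgroup.zpowers u).card_mul_index
      rw [h8, h9] at h10
      have h12 : (2 : ℕ) ^ (m + 1) = 2 ^ m * 2 := pow_succ 2 m
      have h11 : (Subgroup.zpowers u).index = 2 :=
        Nat.eq_of_mul_eq_mul_left (by positivity) (h10.trans h12)
      exact rts_two (Subgroup.zpowers u) h11 e he Z hZ
  · have hc : IsCyclic (ZMod (p ^ n))ˣ := ZMod.isCyclic_units_of_prime_pow p hp hp2 n
    have h4 := IsCyclic.card_pow_eq_one_le (α := (ZMod (p ^ n))ˣ) he
    have h5 : Z ⊆ univ.filter (fun a : (ZMod (p ^ n))ˣ => a ^ e = 1) := by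
      intro y hy
      rw [mem_filter]
      exact ⟨mem_univ _, hZ y hy⟩
    exact (card_le_card h5).trans (h4.trans (by omega))

theorem rts_thm : S_RTS := by
  intro M e Z hM he
  revert Z hM
  induction M using Nat.recOnPosPrimePosCoprime with
  | prime_pow p n hp hn =>
    intro Z _ hZ
    have h1 := rts_pp p n e hp hn Z he hZ
    rw [Nat.primeFactors_prime_pow hn.ne' hp]
    simpa using h1
  | zero => intro Z h; exact absurd h (lt_irrefl 0)
  | one =>
    intro Z _ _
    have h1 : Z.card ≤ Fintype.card (ZMod 1) := card_le_univ Z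
    have h2 : Fintype.card (ZMod 1) = 1 := rfl
    simp only [Nat.primeFactors_one, card_empty, pow_zero]
    omega
  | coprime a b ha hb hab iha ihb =>
    intro Z _ hZ
    classical
    have h1 := iha (Z.image (fun y => (ZMod.chineseRemainder hab y).1)) (by omega) (by
      intro y hy
      rw [mem_image] at hy
      obtain ⟨z, hz, rfl⟩ := hy
      rw [← Prod.pow_fst, ← map_pow, hZ z hz, map_one, Prod.fst_one])
    have h2 := ihb (Z.image (fun y => (ZMod.chineseRemainder hab y).2)) (by omega) (by
      intro y hy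
      rw [mem_image] at hy
      obtain ⟨z, hz, rfl⟩ := hy
      rw [← Prod.pow_snd, ← map_pow, hZ z hz, map_one, Prod.snd_one])
    have h3 : Z.image (ZMod.chineseRemainder hab) ⊆
        (Z.image (fun y => (ZMod.chineseRemainder hab y).1)) ×ˢ
          (Z.image (fun y => (ZMod.chineseRemainder hab y).2)) := by
      intro w hw
      rw [mem_image] at hw
      obtain ⟨z, hz, rfl⟩ := hw
      rw [mem_product]
      exact ⟨mem_image_of_mem _ hz, mem_image_of_mem _ hz⟩
    have h4 : (Z.image (ZMod.chineseRemainder hab)).card = Z.card :=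
      card_image_of_injective _ (ZMod.chineseRemainder hab).injective
    have h5 := card_le_card h3
    rw [h4, card_product] at h5
    have h6 : (a * b).primeFactors.card = a.primeFactors.card + b.primeFactors.card := by
      rw [hab.primeFactors_mul, card_union_of_disjoint hab.disjoint_primeFactors]
    rw [h6, pow_add]
    exact h5.trans (Nat.mul_le_mul h1 h2)

end Pool.MED
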